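import Pool.Agent.helper19.HF.SpecA

/-!
# Row `hf:GEN` (MP_bf63dc_nt, project HF): a generic location with low windows (averaging)
-/

set_option autoImplicit false

namespace Pool.Agent.HF

open Finset

theorem GEN_V (V : ℕ → Prop) (s : ℕ) (h : ∀ Y, V Y → V (Y + s)) (Y : ℕ) (hY : V Y) (x : ℕ) : V (Y + s * x) := by
  induction x with
  | zero => simpa using hY
  | succ x ih =>
    have h1 := h _ ih
    rw [show Y + s * (x + 1) = Y + s * x + s by ring]
    exact h1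

open Classical in
theorem GEN_cw (g : ℕ → Prop) (Y s l : ℕ) : (cw g Y s l : ℝ) = ∑ x ∈ range l, if g (Y + s * x) then (1 : ℝ) else 0 := by
  unfold cw
  rw [Finset.card_filter]
  push_cast
  rfl

/-- every element is in at most `m` windows of length `m` -/
theorem GEN_sum (g : ℕ → Prop) (Y s n c m l : ℕ) (h : n + c + m ≤ l) :
    ∑ x ∈ range n, (cw g (Y + s * (x + c)) s m : ℝ) ≤ m * cw g Y s l := by
  classical
  simp only [GEN_cw]
  rw [Finset.sum_comm]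
  have h1 : ∀ y ∈ range m, ∑ x ∈ range n, (if g (Y + s * (x + c) + s * y) then (1 : ℝ) else 0) ≤
      ∑ x ∈ range l, if g (Y + s * x) then (1 : ℝ) else 0 := by
    intro y hy
    rw [Finset.mem_range] at hy
    have h2 : ∑ x ∈ range n, (if g (Y + s * (x + c) + s * y) then (1 : ℝ) else 0) =
        ∑ x ∈ (range n).map (addRightEmbedding (c + y)), if g (Y + s * x) then (1 : ℝ) else 0 := by
      rw [Finset.sum_map]
      refine Finset.sum_congr rfl fun x _ => ?_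
      rw [addRightEmbedding_apply, show Y + s * (x + c) + s * y = Y + s * (x + (c + y)) by ring]
    rw [h2]
    refine Finset.sum_le_sum_of_subset_of_nonneg ?_ fun z _ _ => ?_
    · intro z hz
      rw [Finset.mem_map] at hz
      obtain ⟨x, hx, rfl⟩ := hz
      rw [Finset.mem_range] at hx ⊢
      rw [addRightEmbedding_apply]
      omega
    · split_ifs <;> norm_num
  calc _ ≤ ∑ y ∈ range m, ∑ x ∈ range l, (if g (Y + s * x) then (1 : ℝ) else 0) := Finset.sum_le_sum h1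
    _ = _ := by rw [Finset.sum_const, Finset.card_range, nsmul_eq_mul]

open Classical in
/-- few windows are high -/
theorem GEN_bad (g V : ℕ → Prop) (s l₀ : ℕ) (γ ε K : ℝ) (hV : ∀ Y, V Y → V (Y + s)) (hε : 0 < ε) (Y₀ : ℕ) (hY₀ : V Y₀) (l : ℕ)
    (hl : (cw g Y₀ s l : ℝ) ≤ (γ + ε) * l) (hlow : ∀ l : ℕ, l₀ ≤ l → ∀ Y, V Y → (γ - ε) * l ≤ cw g Y s l)
    (m n c : ℕ) (hm : 1 ≤ m) (hm0 : l₀ ≤ m) (h : n + c + m ≤ l) :
    (#{x ∈ range n | (γ + K) * m < cw g (Y₀ + s * (x + c)) s m} : ℝ) * K ≤ (γ + ε) * l - (γ - ε) * n := by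
  have hm' : (0 : ℝ) < m := by exact_mod_cast hm
  have h1 := GEN_sum g Y₀ s n c m l h
  have h2 : ∀ x, (γ - ε) * m ≤ cw g (Y₀ + s * (x + c)) s m := fun x => hlow m hm0 _ (GEN_V V s hV Y₀ hY₀ _)
  have h3 : ∑ x ∈ {x ∈ range n | (γ + K) * m < cw g (Y₀ + s * (x + c)) s m}, K * m ≤
      ∑ x ∈ {x ∈ range n | (γ + K) * m < cw g (Y₀ + s * (x + c)) s m}, ((cw g (Y₀ + s * (x + c)) s m : ℝ) - (γ - ε) * m) := by
    refine Finset.sum_le_sum fun x hx => ?_
    have h4 := (Finset.mem_filter.1 hx).2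
    nlinarith
  have h5 : ∑ x ∈ {x ∈ range n | (γ + K) * m < cw g (Y₀ + s * (x + c)) s m}, ((cw g (Y₀ + s * (x + c)) s m : ℝ) - (γ - ε) * m) ≤
      ∑ x ∈ range n, ((cw g (Y₀ + s * (x + c)) s m : ℝ) - (γ - ε) * m) :=
    Finset.sum_le_sum_of_subset_of_nonneg (Finset.filter_subset _ _) fun x _ _ => sub_nonneg.2 (h2 x)
  rw [Finset.sum_const, nsmul_eq_mul] at h3
  have h8 : ∑ x ∈ range n, ((cw g (Y₀ + s * (x + c)) s m : ℝ) - (γ - ε) * m) =
      ∑ x ∈ range n, (cw g (Y₀ + s * (x + c)) s m : ℝ) - n * ((γ - ε) * m) := by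
    rw [Finset.sum_sub_distrib, Finset.sum_const, Finset.card_range, nsmul_eq_mul]
  rw [h8] at h5
  have h6 : (m : ℝ) * cw g Y₀ s l ≤ m * ((γ + ε) * l) := mul_le_mul_of_nonneg_left hl hm'.le
  have h7 : (m : ℝ) * ((#{x ∈ range n | (γ + K) * m < cw g (Y₀ + s * (x + c)) s m} : ℝ) * K) ≤ m * ((γ + ε) * l - (γ - ε) * n) := by
    linarith
  exact le_of_mul_le_mul_left h7 hm'

theorem GEN : GEN_stmt := by
  classical
  intro g V s N l₀ γ ε hs hV hε hγ0 hγ1 hup hlow R hR hR0 O hO B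
  -- the offsets are bounded
  obtain ⟨H, hH⟩ : ∃ H : ℕ, ∀ o ∈ O, -(H : ℤ) ≤ o ∧ o ≤ H := by
    refine ⟨∑ o ∈ O, o.natAbs, fun o ho => ?_⟩
    have h1 : o.natAbs ≤ ∑ o ∈ O, o.natAbs := Finset.single_le_sum (f := fun o : ℤ => o.natAbs) (fun _ _ => Nat.zero_le _) ho
    omega
  set C : ℕ := H + R + B + H + R with hC
  obtain ⟨n, hn⟩ := exists_nat_gt ((1 + ε) * C / (2 * ε))
  rw [div_lt_iff₀ (by positivity)] at hn
  obtain ⟨Y₀, hY₀, hl⟩ := hup (n + C)
  have hR1 : (1 : ℝ) ≤ R := by exact_mod_cast hR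
  -- the bad sets
  set c : ℤ → ℕ := fun o => ((H + R + B : ℤ) + o - R).toNat with hc
  have hc1 : ∀ o ∈ O, (c o : ℤ) = (H + R + B : ℤ) + o - R := by
    intro o ho
    have := hH o ho
    rw [hc]
    show ((((H + R + B : ℤ) + o - R).toNat : ℕ) : ℤ) = _
    rw [Int.toNat_of_nonneg (by omega)]
  set K : ℝ := 4 * (N + 1) * ε with hK
  have hK0 : 0 < K := by positivity
  set Bd : ℤ → Finset ℕ := fun o => {x ∈ range n | (γ + K) * ((2 * R : ℕ) : ℝ) < cw g (Y₀ + s * (x + c o)) s (2 * R)} with hBd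
  have hb : ∀ o ∈ O, (#(Bd o) : ℝ) * K ≤ 2 * ε * n + (1 + ε) * C := by
    intro o ho
    have h0 := hH o ho
    have h1 := hc1 o ho
    have h2 := GEN_bad g V s l₀ γ ε K hV hε Y₀ hY₀ (n + C) hl hlow (2 * R) n (c o) (by omega) (by omega) (by omega)
    refine h2.trans ?_
    push_cast
    have h3 : (0 : ℝ) ≤ C := Nat.cast_nonneg _
    nlinarith
  have hu : (#(O.biUnion Bd) : ℝ) < n := by
    have h1 : (#(O.biUnion Bd) : ℝ) ≤ ∑ o ∈ O, (#(Bd o) : ℝ) := by exact_mod_cast Finset.card_biUnion_le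
    have h2 : (∑ o ∈ O, (#(Bd o) : ℝ)) * K ≤ N * (2 * ε * n + (1 + ε) * C) := by
      rw [Finset.sum_mul]
      refine (Finset.sum_le_card_nsmul _ _ _ hb).trans ?_
      rw [nsmul_eq_mul]
      refine mul_le_mul_of_nonneg_right (by exact_mod_cast hO) ?_
      positivity
    have h3 : (N : ℝ) * (2 * ε * n + (1 + ε) * C) < n * K := by
      rw [hK]
      have h4 : (0 : ℝ) ≤ N := Nat.cast_nonneg _
      have h5 : (0 : ℝ) ≤ n := Nat.cast_nonneg _
      have h6 : (N : ℝ) * ((1 + ε) * C) ≤ N * (n * (2 * ε)) := mul_le_mul_of_nonneg_left hn.le h4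
      have h7 : (0 : ℝ) < n * (2 * ε) := lt_of_le_of_lt (by positivity) hn
      nlinarith
    have h4 : (#(O.biUnion Bd) : ℝ) * K < n * K := (mul_le_mul_of_nonneg_right h1 hK0.le).trans_lt (h2.trans_lt h3)
    exact lt_of_mul_lt_mul_right h4 hK0.le
  obtain ⟨x, hx, hxB⟩ : ∃ x ∈ range n, x ∉ O.biUnion Bd := by
    by_contra hne
    push Not at hne
    have h1 : #(range n) ≤ #(O.biUnion Bd) := Finset.card_le_card hne
    rw [Finset.card_range] at h1
    have h2 : (n : ℝ) ≤ #(O.biUnion Bd) := by exact_mod_cast h1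
    linarith
  refine ⟨Y₀ + s * (H + R + B + x), GEN_V V s hV Y₀ hY₀ _, ?_, fun o ho => ⟨Y₀ + s * (x + c o), GEN_V V s hV Y₀ hY₀ _, ?_, ?_⟩⟩
  · nlinarith
  · push_cast
    rw [hc1 o ho]
    ring
  · by_contra hne
    push Not at hne
    refine hxB (Finset.mem_biUnion.2 ⟨o, ho, Finset.mem_filter.2 ⟨hx, ?_⟩⟩)
    rw [hK]
    push_cast
    exact hne

end Pool.Agent.HF
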